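import Mathlib

set_option autoImplicit false

namespace Pool.Agent.Results.MP_8ae111_al.Neg2

variable {R : Type} [NonUnitalNonAssocRing R]

/-- The derived series of the subring `S`: `der S 0 = S`, and `der S (k+1)` is the additive
subgroup generated by the products of two elements of `der S k`. -/
def der (S : AddSubgroup R) : ℕ → AddSubgroup R
  | 0 => S
  | k + 1 => AddSubgroup.closure {z | ∃ x ∈ der S k, ∃ y ∈ der S k, z = x * y}

/-- The ring `S` is solvable. -/
def Solv (S : AddSubgroup R) : Prop := ∃ n, der S n = ⊥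

/-- The fixed subring of a group of ring automorphisms. -/
def fix (G : Subgroup (RingAut R)) : AddSubgroup R where
  carrier := {a | ∀ g ∈ G, g a = a}
  add_mem' ha hb g hg := by rw [map_add, ha g hg, hb g hg]
  zero_mem' g _ := map_zero g
  neg_mem' ha g hg := by rw [map_neg, ha g hg]

def E := ZMod 2 × ZMod 2 × ZMod 2

instance : Fintype E := inferInstanceAs (Fintype (ZMod 2 × ZMod 2 × ZMod 2))
instance : DecidableEq E := inferInstanceAs (DecidableEq (ZMod 2 × ZMod 2 × ZMod 2))
instance ag : AddCommGroup E := inferInstanceAs (AddCommGroup (ZMod 2 × ZMod 2 × ZMod 2))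

/-- The cross product on `F_2^3`. -/
instance ring : NonUnitalNonAssocRing E :=
  { ag with
    mul x y := (x.2.1 * y.2.2 + x.2.2 * y.2.1, x.2.2 * y.1 + x.1 * y.2.2, x.1 * y.2.1 + x.2.1 * y.1)
    left_distrib := by decide +kernel
    right_distrib := by decide +kernel
    zero_mul := by decide +kernel
    mul_zero := by decide +kernel }

def σ : RingAut E where
  toFun x := (x.2.2, x.1, x.2.1)
  invFun x := (x.2.1, x.2.2, x.1)
  left_inv _ := rfl
  right_inv _ := rfl
  map_mul' := by decide +kernel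
  map_add' _ _ := rfl

theorem ord : orderOf σ = 3 :=
  haveI : Fact (Nat.Prime 3) := ⟨Nat.prime_three⟩
  orderOf_eq_prime (RingEquiv.ext fun _ => rfl) fun h =>
    absurd (congrArg (fun g : RingAut E => g ((1, 0, 0) : ZMod 2 × ZMod 2 × ZMod 2)) h)
      (by decide +kernel)

theorem result : ∃ (A : Type) (_ : NonUnitalNonAssocRing A), (∀ x y : A, x * y = y * x) ∧
    (∀ x y : A, ((x * x) * y) * x = (x * x) * (y * x)) ∧
    ∃ G : Subgroup (RingAut A), Finite G ∧ (∀ a : A, Nat.card G • a = 0 → a = 0) ∧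
      Solv (fix G) ∧ ¬Solv (⊤ : AddSubgroup A) := by
  have hc : Nat.card (Subgroup.zpowers σ) = 3 := by rw [Nat.card_zpowers, ord]
  refine ⟨E, ring, by decide +kernel, by decide +kernel, Subgroup.zpowers σ,
    Nat.finite_of_card_ne_zero (by omega), ?_, ⟨1, ?_⟩, fun ⟨n, h⟩ => ?_⟩
  · rw [hc]; decide +kernel
  · refine eq_bot_iff.2 ((AddSubgroup.closure_le _).2 ?_)
    rintro _ ⟨x, hx, y, hy, rfl⟩
    exact (by decide +kernel : ∀ x y : E, σ x = x → σ y = y → x * y = 0) x y
      (hx σ (Subgroup.mem_zpowers σ)) (hy σ (Subgroup.mem_zpowers σ))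
  · have : ∀ k, der (⊤ : AddSubgroup E) k = ⊤ := by
      intro k
      induction k with
      | zero => rfl
      | succ k ih =>
        refine eq_top_iff.2 fun z _ => AddSubgroup.subset_closure ?_
        obtain ⟨x, y, e⟩ := (by decide +kernel : ∀ z : E, ∃ x y : E, z = x * y) z
        exact ⟨x, by rw [ih]; trivial, y, by rw [ih]; trivial, e⟩
    rw [this] at h
    have : ((1, 0, 0) : ZMod 2 × ZMod 2 × ZMod 2) ∈ (⊥ : AddSubgroup E) := h ▸ trivial
    exact absurd (AddSubgroup.mem_bot.1 this) (by decide +kernel)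

end Pool.Agent.Results.MP_8ae111_al.Neg2
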